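import Pool.Agent.H705Z.PlMain

set_option autoImplicit false

namespace Pool.Agent.Results.MP_bc0af3_ag.APrincipalNotPoly

open Pool.Agent.H705Z.Expo

theorem result (k : Type*) [Field k] [CharP k 2] :
    ∃ φ : MvPolynomial (Fin 3) k ≃ₐ[k] MvPolynomial (Fin 3) k,
      IsExponential φ ∧ (plinth φ).IsPrincipal ∧
        ¬ Nonempty (fixedRing φ ≃ₐ[k] MvPolynomial (Fin 3) k) :=
  ⟨Pl.phi k, Pl.phi_exp k, Pl.plinth_principal k, Pl.not_poly k⟩

end Pool.Agent.Results.MP_bc0af3_ag.APrincipalNotPoly
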